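import Pool.Agent.H328Z.Soc.Main

open Pool.Agent.H328Z.Soc

/-- Graded socle multiplicity of `S_μ(V) ⊗ Det^k` in `S(V)` for `GL_n(q)`. -/
theorem Pool.Agent.Results.MP_ff8c2f_al.ASocleFormula.result
    (F : Type*) [Field F] [Fintype F] (q : ℕ) (hq : Fintype.card F = q)
    (n : ℕ) (hn : 1 ≤ n) (μ : YoungDiagram) (k : ℕ) (hk : k + μ.rowLen 0 + 2 ≤ q) :
    PowerSeries.mk (fun m => (socleMult F n μ k m : ℚ)) =
      PowerSeries.X ^ (k * ((q ^ n - 1) / (q - 1))) *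
        (∏ i ∈ Finset.range n, (1 - PowerSeries.X ^ (q ^ n - q ^ i)))⁻¹ *
        MvPolynomial.aeval (fun i : Fin n => (PowerSeries.X : PowerSeries ℚ) ^ q ^ (i : ℕ))
          (schurPoly n μ) := by
  subst hq
  have : NeZero n := ⟨by omega⟩
  exact main hk
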